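import Pool.Agent.H.MP_60a1a2_co.LfFinal

set_option autoImplicit false

namespace Pool.Agent.Results.MP_60a1a2_co.FreeReduction

open Matroid Pool.Agent.H.MP_60a1a2_co

/-- For all `k` and `s` there is `n` such that for every finite matroid `M` with `n`-interconnected
minors `N₁ = M / C₁ \ D₁ ≅ M(K_a)` and `N₂ = M / C₂ \ D₂ ≅ M*(K_b)`, `a, b ≥ n` (in particular
`a = b = n`): `M` has a `U_{k,2k}`-minor, or a `PG(k,p)`-minor for a prime number `p`, or `N₁` has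
a restriction `N₁' ≅ M(K_{s+1})` and `N₂*` has a restriction `N₂'* ≅ M(K_{s+1})` such that `N₁'`,
`N₂'` are `s`-interconnected in `M`, the ground set of `N₁'` is independent in `M / (C₁ - D₂)` and
the ground set of `N₂'` is independent in `M* / (D₂ - C₁)`. -/
theorem result.{u} (k s : ℕ) : ∃ n : ℕ, ∀ a b : ℕ, n ≤ a → n ≤ b →
    ∀ {α : Type u} (M : Matroid α) (C₁ D₁ C₂ D₂ : Set α) [M.Finite], C₁ ⊆ M.E → D₁ ⊆ M.E →
    Disjoint C₁ D₁ → C₂ ⊆ M.E → D₂ ⊆ M.E → Disjoint C₂ D₂ →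
    IsMK (M ／ C₁ ＼ D₁) a → IsMK (M ／ C₂ ＼ D₂)✶ b →
    Interconnected M (M ／ C₁ ＼ D₁) (M ／ C₂ ＼ D₂) n →
    (HasUMinor M k ∨ ∃ (p : ℕ) (_ : Fact p.Prime), HasPGMinor M k p) ∨
    ∃ N₁' N₂' : Matroid α, N₁' ≤r M ／ C₁ ＼ D₁ ∧ N₂'✶ ≤r (M ／ C₂ ＼ D₂)✶ ∧
      IsMK N₁' (s + 1) ∧ IsMK N₂'✶ (s + 1) ∧ Interconnected M N₁' N₂' s ∧
      (M ／ (C₁ \ D₂)).Indep N₁'.E ∧ (M✶ ／ (D₂ \ C₁)).Indep N₂'.E :=
  final_free k s

end Pool.Agent.Results.MP_60a1a2_co.FreeReduction
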