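import Pool.Agent.H.MP_60a1a2_co.LfFinal

set_option autoImplicit false

namespace Pool.Agent.Results.MP_60a1a2_co.LargeRelativeRank

open Matroid Pool.Agent.H.MP_60a1a2_co

/-- For every `k` there is `n` such that every finite matroid `M` with `n`-interconnected minors
`N₁ = M / C₁ \ D₁ ≅ M(K_a)` and `N₂ = M / C₂ \ D₂ ≅ M*(K_b)`, `a, b ≥ n` (in particular
`a = b = n`), has a `U_{k,2k}`-minor or a `PG(k,p)`-minor for a prime number `p`, provided that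
`r(C₁ ∪ C₂ ∪ E(N₂) ∪ E(N₁)) ≥ r(C₁ ∪ C₂ ∪ E(N₂)) + n` (here `C₂ ∪ E(N₂) = E(M) - D₂`), or dually
`r*(D₂ ∪ D₁ ∪ E(N₁) ∪ E(N₂)) ≥ r*(D₂ ∪ D₁ ∪ E(N₁)) + n` (here `D₁ ∪ E(N₁) = E(M) - C₁`). -/
theorem result.{u} (k : ℕ) : ∃ n : ℕ, ∀ a b : ℕ, n ≤ a → n ≤ b →
    ∀ {α : Type u} (M : Matroid α) (C₁ D₁ C₂ D₂ : Set α) [M.Finite], C₁ ⊆ M.E → D₁ ⊆ M.E →
    Disjoint C₁ D₁ → C₂ ⊆ M.E → D₂ ⊆ M.E → Disjoint C₂ D₂ →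
    IsMK (M ／ C₁ ＼ D₁) a → IsMK (M ／ C₂ ＼ D₂)✶ b →
    Interconnected M (M ／ C₁ ＼ D₁) (M ／ C₂ ＼ D₂) n →
    (M.eRk (C₁ ∪ (M.E \ D₂)) + n ≤ M.eRk ((M.E \ D₁) ∪ (M.E \ D₂)) ∨
      M✶.eRk (D₂ ∪ (M.E \ C₁)) + n ≤ M✶.eRk ((M.E \ C₂) ∪ (M.E \ C₁))) →
    HasUMinor M k ∨ ∃ (p : ℕ) (_ : Fact p.Prime), HasPGMinor M k p :=
  final_nested k

end Pool.Agent.Results.MP_60a1a2_co.LargeRelativeRank
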