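import Pool.Agent.H.MP_60a1a2_co.LcFinal

set_option autoImplicit false

namespace Pool.Agent.Results.MP_60a1a2_co.LinearConnectivity

open Matroid Pool.Agent.H.MP_60a1a2_co

/-- For every `k` there are `w` and `f : ℕ → ℕ` such that for all `c`, `d` and all `a, b ≥ w` every
finite matroid `M` with `w`-interconnected minors `N₁ = M / C₁ \ D₁ ≅ M(K_a)` and
`N₂ = M / C₂ \ D₂ ≅ M*(K_b)` has a `U_{k,2k}`-minor or a `PG(k,p)`-minor for a prime number `p`,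
provided that one of the following holds.
* `κ_M(E(N₁), E(N₂)) ≤ min (c * a) (d * b)`, `a ≥ f c` and `b ≥ f d`.
* `b ≥ f d` and for some `X ⊆ C₁` and some restriction `N ≅ M(K_m)` of `N₁`, `m ≥ f c`, the rank of
  `E(N)` in `M / X` is at most `c * m` (or no `M(K_{c+1})`-restriction of `N` has a ground set which
  is independent in `M / X`), and the local connectivity of `X ∪ E(N)` and `E(N₂)` in `M / C₂` is at
  most `d * b`.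
* The dual of the second condition. -/
theorem result.{u} (k : ℕ) : ∃ (w : ℕ) (f : ℕ → ℕ), ∀ a b c d : ℕ, w ≤ a → w ≤ b →
    ∀ {α : Type u} (M : Matroid α) (C₁ D₁ C₂ D₂ : Set α) [M.Finite], C₁ ⊆ M.E → D₁ ⊆ M.E →
    Disjoint C₁ D₁ → C₂ ⊆ M.E → D₂ ⊆ M.E → Disjoint C₂ D₂ →
    IsMK (M ／ C₁ ＼ D₁) a → IsMK (M ／ C₂ ＼ D₂)✶ b →
    Interconnected M (M ／ C₁ ＼ D₁) (M ／ C₂ ＼ D₂) w →
    ((f c ≤ a ∧ f d ≤ b ∧ ∃ A, (M ／ C₁ ＼ D₁).E ⊆ A ∧ A ⊆ M.E \ (M ／ C₂ ＼ D₂).E ∧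
        M.eRk A + M.eRk (M.E \ A) ≤ M.eRank + (min (c * a) (d * b) : ℕ)) ∨
      (f d ≤ b ∧ Cheap M C₁ C₂ (M ／ C₁ ＼ D₁) (M ／ C₂ ＼ D₂) c (f c) (d * b)) ∨
      (f d ≤ a ∧ Cheap M✶ D₂ D₁ (M ／ C₂ ＼ D₂)✶ (M ／ C₁ ＼ D₁)✶ c (f c) (d * a))) →
    HasUMinor M k ∨ ∃ (p : ℕ) (_ : Fact p.Prime), HasPGMinor M k p :=
  final_linear k

end Pool.Agent.Results.MP_60a1a2_co.LinearConnectivity
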