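import Pool.Agent.H.MP_60a1a2_co.Lp.Fin

set_option autoImplicit false

namespace Pool.Agent.Results.MP_60a1a2_co.SuperexponentialBound

open Matroid Pool.Agent.H.MP_60a1a2_co Pool.Agent.H.MP_60a1a2_co.Lp

/-- Let `p ≤ k` be a prime. If `2 (k + n + 1) (k + n + 2) < 1 + p + ... + p ^ k` then there is a
finite matroid `M` representable over the field with `p` elements, with `n`-interconnected minors
`M(K_N)` and `M*(K_N)` (for any `N ≥ n + 2`) and with `n`-interconnected minors `M(K_n)` and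
`M*(K_n)`, which has no `U_{k,2k}`-minor and no `PG(k,q)`-minor, `q` any prime power. -/
theorem result (p : ℕ) [Fact p.Prime] (k n N : ℕ) (hk : p ≤ k) (hn : 3 ≤ n) (hN : n + 2 ≤ N)
    (h : 2 * (k + n + 1) * (k + n + 2) < ∑ i ∈ Finset.range (k + 1), p ^ i) :
    ∃ (α : Type) (M : Matroid α), M.Finite ∧
      (∃ (W : Type) (_ : AddCommGroup W) (_ : Module (ZMod p) W) (v : α → W),
        ∀ I ⊆ M.E, M.Indep I ↔ LinearIndepOn (ZMod p) v I) ∧
      (∃ N₁ N₂, N₁ ≤m M ∧ N₂ ≤m M ∧ IsMK N₁ N ∧ IsMK N₂✶ N ∧ Interconnected M N₁ N₂ n) ∧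
      (∃ N₁ N₂, N₁ ≤m M ∧ N₂ ≤m M ∧ IsMK N₁ n ∧ IsMK N₂✶ n ∧ Interconnected M N₁ N₂ n) ∧
      ¬ HasUMinor M k ∧ ∀ (F : Type) [Field F] [Finite F], ¬ HasPGMinorF M k F :=
  lower hk hn hN h

end Pool.Agent.Results.MP_60a1a2_co.SuperexponentialBound
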